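import Pool.Agent.Helper36.RN.GoalsH

/-!
# Packet RFn IVV: the algebraic constraints are preserved
-/

namespace Pool.Agent.Helper59.RN

open Set Filter Topology Pool.Agent.Helper47.RFn Pool.Agent.Helper36.RN

/-- algebra of the derivative of `A θ` -/
theorem ivv_alg {I R : Type*} [Fintype I] [DecidableEq I] [CommRing R] (M A θ : I → I → R)
    (a b : I) :
    ∑ i, ((∑ e, M a e * A e i) * θ i b + A a i * (- ∑ e, θ i e * M e b)) =
    ∑ p : I × I, ((if p.2 = b then M a p.1 else 0) - (if p.1 = a then M p.2 b else 0)) *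
      (∑ i, A p.1 i * θ i p.2 - if p.1 = p.2 then 1 else 0) := by
  have h1 : ∀ X : I → I → R,
      ∑ p : I × I, (if p.2 = b then M a p.1 else 0) * X p.1 p.2 = ∑ e, M a e * X e b := by
    intro X
    rw [Fintype.sum_prod_type]
    refine Finset.sum_congr rfl fun e _ => ?_
    simp only [ite_mul, zero_mul, Finset.sum_ite_eq', Finset.mem_univ, if_true]
  have h2 : ∀ X : I → I → R,
      ∑ p : I × I, (if p.1 = a then M p.2 b else 0) * X p.1 p.2 = ∑ e, M e b * X a e := by
    intro X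
    rw [Fintype.sum_prod_type_right]
    refine Finset.sum_congr rfl fun e _ => ?_
    simp [ite_mul, zero_mul, Finset.sum_ite_eq', Finset.mem_univ]
  have l1 : ∑ i, (∑ e, M a e * A e i) * θ i b = ∑ e, M a e * ∑ i, A e i * θ i b := by
    simp_rw [Finset.sum_mul, Finset.mul_sum]
    rw [Finset.sum_comm]
    exact Finset.sum_congr rfl fun e _ => Finset.sum_congr rfl fun i _ => mul_assoc _ _ _
  have l2 : ∑ i, A a i * (- ∑ e, θ i e * M e b) = - ∑ e, M e b * ∑ i, A a i * θ i e := by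
    simp_rw [mul_neg, Finset.sum_neg_distrib, Finset.mul_sum]
    rw [Finset.sum_comm]
    congr 1
    exact Finset.sum_congr rfl fun e _ => Finset.sum_congr rfl fun i _ => by ring
  have r1 : ∑ e, M a e * (if e = b then (1 : R) else 0) = M a b := by simp
  have r2 : ∑ e, M e b * (if a = e then (1 : R) else 0) = M a b := by simp
  rw [Finset.sum_add_distrib, l1, l2]
  simp_rw [sub_mul]
  rw [Finset.sum_sub_distrib, h1 (fun x y => ∑ i, A x i * θ i y - if x = y then 1 else 0),
    h2 (fun x y => ∑ i, A x i * θ i y - if x = y then 1 else 0)]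
  simp_rw [mul_sub]
  rw [Finset.sum_sub_distrib, Finset.sum_sub_distrib, r1, r2]
  ring

/-- algebra of the derivative of `O Oᵀ` -/
theorem ivv_alg2 {I R : Type*} [Fintype I] [CommRing R] (O Z : I → I → R)
    (hZ : ∀ c d, Z c d = - Z d c) (a b : I) :
    ∑ c, ((- ∑ e, O a e * Z e c) * O b c + O a c * (- ∑ e, O b e * Z e c)) = 0 := by
  have l1 : ∑ c, (- ∑ e, O a e * Z e c) * O b c = - ∑ c, ∑ e, O a e * O b c * Z e c := by
    rw [← Finset.sum_neg_distrib]
    refine Finset.sum_congr rfl fun c _ => ?_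
    rw [neg_mul, Finset.sum_mul]
    congr 1
    exact Finset.sum_congr rfl fun e _ => by ring
  have l2 : ∑ c, O a c * (- ∑ e, O b e * Z e c) = ∑ c, ∑ e, O a e * O b c * Z e c := by
    rw [Finset.sum_comm]
    refine Finset.sum_congr rfl fun c _ => ?_
    rw [← Finset.sum_neg_distrib, Finset.mul_sum]
    refine Finset.sum_congr rfl fun e _ => ?_
    rw [hZ e c]
    ring
  rw [Finset.sum_add_distrib, l1, l2]
  ring

/-- from `A θ = 1` to `θ A = 1` -/
theorem ivv_comm {I R : Type*} [Fintype I] [DecidableEq I] [CommRing R] (A θ : I → I → R)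
    (h : ∀ a b, ∑ i, A a i * θ i b = if a = b then 1 else 0) (i j : I) :
    ∑ a, θ i a * A a j = if i = j then 1 else 0 := by
  have h1 : (Matrix.of A) * (Matrix.of θ) = 1 := by
    ext1 a b
    rw [Matrix.mul_apply, Matrix.one_apply]
    exact h a b
  have h2 := mul_eq_one_comm.1 h1
  have h3 := congrFun (congrFun h2 i) j
  rw [Matrix.mul_apply, Matrix.one_apply] at h3
  exact h3

theorem ivv : G_IVV := by
  intro hANT hCDA hEN n τ A θ O w hF h0 hO0
  obtain ⟨c0, -, csub, cmul, -, -, -, -, csum, ccong', -, cdcc, k0, kadd, ksub, kmul, kneg, -, -,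
    kEe, ksum, -, -, -⟩ := hCDA n τ
  have kA : ∀ a i, CC τ (fun t => A t a i) := fun a i => (cdcc _ _ (hF.dA a i)).1
  have kw : ∀ i c d, CC τ (fun t => w t i c d) := fun i c d => (cdcc _ _ (hF.dw i c d)).1
  have kFF : ∀ i j c d, CC τ (fun t => TC.F (Ee (n := n)) nu (w t) i j c d) := fun i j c d =>
    ksub _ _ (kadd _ _ (ksub _ _ (kEe i _ (kw j c d)) (kEe j _ (kw i c d)))
      (ksum _ _ _ fun f _ => ksub _ _ (kmul _ _ (kw j c f) (kw i f d))
        (kmul _ _ (kw i c f) (kw j f d))))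
      (ksub _ _ (kmul _ _ (k0 (nu i)) (kw j c d)) (kmul _ _ (k0 (nu j)) (kw i c d)))
  have kK : ∀ a b c d, CC τ (fun t => TC.K (Ee (n := n)) nu (A t) (w t) a b c d) := fun a b c d =>
    ksum _ _ _ fun i _ => ksum _ _ _ fun j _ => kmul _ _ (kmul _ _ (kA a i) (kA b j)) (kFF i j c d)
  have kS : ∀ a c, CC τ (fun t => TC.Sr (Ee (n := n)) nu (A t) (w t) a c) := fun a c =>
    ksum _ _ _ fun b _ => kK a b b c
  have kal : ∀ k l, CC τ (fun t => TC.al (A t) k l) := fun k l =>
    ksum _ _ _ fun a _ => kmul _ _ (kA a k) (kA a l)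
  have kze : ∀ c d, CC τ (fun t => TC.ze (Ee (n := n)) (A t) (w t) c d) := fun c d =>
    ksum _ _ _ fun k _ => ksum _ _ _ fun l _ => kmul _ _ (kal k l) (kEe k _ (kw l c d))
  have kM : ∀ a b, CC τ (fun t => TC.Mm (Ee (n := n)) nu (A t) (w t) a b) := fun a b =>
    kadd _ _ (kS a b) (kze a b)
  have kite : ∀ (p : Prop) [Decidable p] (y : ℝ → XS n), CC τ y →
      CC τ (fun t => if p then y t else 0) := by
    intro p _ y hy
    by_cases hp : p
    · simpa only [if_pos hp] using hy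
    · simpa only [if_neg hp] using k0 0
  have hAt : ∀ t ∈ Icc 0 τ, ∀ a b, ∑ i, A t a i * θ t i b = if a = b then 1 else 0 := by
    have h1 := hEN n (Ix n × Ix n) τ
      (fun p t => ∑ i, A t p.1 i * θ t i p.2 - if p.1 = p.2 then 1 else 0)
      (fun p t => ∑ i, (TC.rA (Ee (n := n)) nu (A t) (w t) p.1 i * θ t i p.2 +
        A t p.1 i * TC.rt (Ee (n := n)) nu (A t) (θ t) (w t) i p.2) - 0)
      (fun p q t => (if q.2 = p.2 then TC.Mm (Ee (n := n)) nu (A t) (w t) p.1 q.1 else 0) -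
        (if q.1 = p.1 then TC.Mm (Ee (n := n)) nu (A t) (w t) q.2 p.2 else 0))
      (fun p => csub _ _ _ _ (csum _ _ _ _ fun i _ => cmul _ _ _ _ (hF.dA p.1 i) (hF.dt i p.2))
        (c0 _))
      (fun p q => ksub _ _ (kite _ _ (kM p.1 q.1)) (kite _ _ (kM q.2 p.2)))
      (fun t _ p => by
        rw [sub_zero]
        exact ivv_alg (fun a b => TC.Mm (Ee (n := n)) nu (A t) (w t) a b) (A t) (θ t) p.1 p.2)
      (fun p => by
        rw [h0, sub_self])
    intro t ht a b
    exact sub_eq_zero.1 (h1 t ht (a, b))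
  have hOO : ∀ t ∈ Icc 0 τ, ∀ a b, ∑ c, O t a c * O t b c = if a = b then 1 else 0 := by
    have h1 := hEN n (Ix n × Ix n) τ
      (fun p t => ∑ c, O t p.1 c * O t p.2 c - if p.1 = p.2 then 1 else 0)
      (fun p t => ∑ c, (TC.rO (Ee (n := n)) (A t) (w t) (O t) p.1 c * O t p.2 c +
        O t p.1 c * TC.rO (Ee (n := n)) (A t) (w t) (O t) p.2 c) - 0)
      (fun p q t => 0)
      (fun p => csub _ _ _ _ (csum _ _ _ _ fun i _ => cmul _ _ _ _ (hF.dO p.1 i) (hF.dO p.2 i))
        (c0 _))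
      (fun p q => k0 0)
      (fun t _ p => by
        simp only [zero_mul, Finset.sum_const_zero]
        rw [sub_zero]
        exact ivv_alg2 (O t) (TC.ze (Ee (n := n)) (A t) (w t))
          (hANT n (XS n) Ee nu (A t) (θ t) (w t) (hF.anti t)).2.2.2.2.2.1 p.1 p.2)
      (fun p => by
        rw [hO0, sub_self])
    intro t ht a b
    exact sub_eq_zero.1 (h1 t ht (a, b))
  refine ⟨fun t ht => ⟨hAt t ht, ivv_comm _ _ (hAt t ht), hF.anti t⟩, hOO, fun t ht a b => ?_⟩
  exact ivv_comm (O t) (fun c b => O t b c) (hOO t ht) a b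

end Pool.Agent.Helper59.RN
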