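import Pool.Agent.Helper36.RN.Goals

/-!
# Packet SFC: smooth families are continuous in the Sobolev norms
-/

namespace Pool.Agent.Helper59.RN

open Set Filter Topology MeasureTheory Pool.Agent.Helper47.RFn Pool.Agent.Helper36.RN

variable {n : ℕ}

/-- uniform continuity in time of the word derivatives -/
theorem unif {T : ℝ} {y : ℝ → XS n} (hy : SmFam (Icc 0 T) (fun t => ext (y t).1))
    (w : List (Fin (n + 1))) {t : ℝ} (ht : t ∈ Icc 0 T) {ε : ℝ} (hε : 0 < ε) :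
    ∃ η > 0, ∀ s ∈ Icc 0 T, |s - t| ≤ η → ∀ x : Om n, |(We w (y s - y t)).1 x| ≤ ε := by
  have hc := hy.cont w
  have hsub : (Icc (0 : ℝ) T ×ˢ Metric.sphere (0 : EE n) 1) ⊆ Icc (0 : ℝ) T ×ˢ {0}ᶜ := by
    refine prod_mono subset_rfl fun x hx h => ?_
    rw [mem_singleton_iff] at h
    rw [h, mem_sphere_zero_iff_norm, norm_zero] at hx
    exact zero_ne_one hx
  have hK : IsCompact (Icc (0 : ℝ) T ×ˢ Metric.sphere (0 : EE n) 1) :=
    isCompact_Icc.prod (isCompact_sphere 0 1)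
  have hu := hK.uniformContinuousOn_of_continuous (hc.mono hsub)
  rw [Metric.uniformContinuousOn_iff] at hu
  obtain ⟨η, hη, H⟩ := hu ε hε
  refine ⟨η / 2, by positivity, fun s hs hst x => ?_⟩
  have hx : 0 < ‖x.1‖ := norm_pos_iff.2 x.2
  have hr : 0 < ‖x.1‖⁻¹ := inv_pos.2 hx
  have hx1 : ‖‖x.1‖⁻¹ • x.1‖ = 1 := by
    rw [norm_smul, norm_inv, norm_norm, inv_mul_cancel₀ hx.ne']
  have hx0 : ‖x.1‖⁻¹ • x.1 ≠ 0 := by
    intro h
    rw [h, norm_zero] at hx1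
    exact zero_ne_one hx1
  have hx' : ‖x.1‖⁻¹ • x.1 ∈ Metric.sphere (0 : EE n) 1 := mem_sphere_zero_iff_norm.2 hx1
  have h1 := H (s, ‖x.1‖⁻¹ • x.1) ⟨hs, hx'⟩ (t, ‖x.1‖⁻¹ • x.1) ⟨ht, hx'⟩ (by
    rw [Prod.dist_eq, dist_self, Real.dist_eq]
    exact max_lt (by linarith) hη)
  have hv : ∀ u : XS n, (We w u).1 x = Ew w (ext u.1) (‖x.1‖⁻¹ • x.1) := by
    intro u
    have h2 := (We w u).2.hom ‖x.1‖⁻¹ x.1 hr
    rw [ext_apply] at h2
    rw [← h2, ext_of_ne _ hx0]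
    exact We_val w u ⟨_, hx0⟩
  rw [map_sub, sub_val, hv, hv]
  rw [Real.dist_eq] at h1
  exact h1.le

theorem sfc : G_SFC := by
  intro hW n T y hy m t ht δ hδ
  obtain ⟨-, -, -, hW4⟩ := hW n
  -- one word
  have key : ∀ w : List (KK n), ∀ δ > 0, ∃ η > 0, ∀ s ∈ Icc 0 T, |s - t| ≤ η →
      ip (Wd w (y s - y t)) (Wd w (y s - y t)) ≤ δ := by
    intro w δ hδ
    obtain ⟨C, hC⟩ := hW4 w
    have hC' : ∀ (u : XS n) (x : Om n), (Wd w u).1 x ^ 2 ≤
        |C| * ∑ w' ∈ Wn (Fin (n + 1)) w.length, (We w' u).1 x ^ 2 := fun u x =>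
      (hC u x).trans (mul_le_mul_of_nonneg_right (le_abs_self C)
        (Finset.sum_nonneg fun _ _ => sq_nonneg _))
    set N : ℝ := ((Wn (Fin (n + 1)) w.length).card : ℝ) with hN
    set I : ℝ := ip (1 : XS n) 1 with hI
    have hI0 : 0 ≤ I := ip_nonneg _
    have hN0 : 0 ≤ N := Nat.cast_nonneg _
    have hD : 0 < |C| * N * I + 1 := by positivity
    obtain ⟨ε, hε, hεδ⟩ : ∃ ε > 0, ε ^ 2 * (|C| * N * I + 1) ≤ δ := by
      refine ⟨Real.sqrt (δ / (|C| * N * I + 1)), Real.sqrt_pos.2 (by positivity), ?_⟩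
      rw [Real.sq_sqrt (by positivity), div_mul_cancel₀ _ hD.ne']
    have h1 : ∀ w' : List (Fin (n + 1)), ∃ η > 0, ∀ s ∈ Icc 0 T, |s - t| ≤ η → ∀ x : Om n,
        |(We w' (y s - y t)).1 x| ≤ ε := fun w' => unif hy w' ht hε
    choose η hη H using h1
    obtain ⟨η0, hη0, hle⟩ : ∃ η0 > 0, ∀ w' ∈ Wn (Fin (n + 1)) w.length, η0 ≤ η w' := by
      have hne : (Wn (Fin (n + 1)) w.length).Nonempty := ⟨[], mem_Wn.2 (Nat.zero_le _)⟩
      refine ⟨(Wn (Fin (n + 1)) w.length).inf' hne η, ?_, fun w' hw' => Finset.inf'_le _ hw'⟩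
      rw [gt_iff_lt, Finset.lt_inf'_iff]
      exact fun w' _ => hη w'
    refine ⟨η0, hη0, fun s hs hst => ?_⟩
    have h2 : ∀ x : Om n, (Wd w (y s - y t)).1 x ^ 2 ≤ |C| * N * ε ^ 2 := by
      intro x
      refine (hC' _ x).trans ?_
      rw [mul_assoc]
      refine mul_le_mul_of_nonneg_left ?_ (abs_nonneg C)
      have h3 : ∀ w' ∈ Wn (Fin (n + 1)) w.length, (We w' (y s - y t)).1 x ^ 2 ≤ ε ^ 2 := by
        intro w' hw'
        have h4 := H w' s hs (hst.trans (hle w' hw')) x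
        exact sq_le_sq' (by linarith [neg_abs_le ((We w' (y s - y t)).1 x)])
          (by linarith [le_abs_self ((We w' (y s - y t)).1 x)])
      have h5 := Finset.sum_le_card_nsmul _ _ _ h3
      rwa [nsmul_eq_mul] at h5
    have h3 : ip (Wd w (y s - y t)) (Wd w (y s - y t)) ≤
        ip ((|C| * N * ε ^ 2) • (1 : XS n)) 1 := by
      refine ip_mono fun x => ?_
      have := h2 x
      rw [smul_val, one_val]
      nlinarith
    rw [map_smul, LinearMap.smul_apply, smul_eq_mul] at h3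
    refine h3.trans (le_trans ?_ hεδ)
    nlinarith [sq_nonneg ε]
  -- all words
  set M : ℝ := ((Wle m : Finset (List (KK n))).card : ℝ) with hM
  have hM0 : 0 ≤ M := Nat.cast_nonneg _
  have h1 : ∀ w : List (KK n), ∃ η > 0, ∀ s ∈ Icc 0 T, |s - t| ≤ η →
      ip (Wd w (y s - y t)) (Wd w (y s - y t)) ≤ δ / (M + 1) :=
    fun w => key w _ (by positivity)
  choose η hη H using h1
  obtain ⟨η0, hη0, hle⟩ : ∃ η0 > 0, ∀ w ∈ (Wle m : Finset (List (KK n))), η0 ≤ η w := by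
    have hne : (Wle m : Finset (List (KK n))).Nonempty := ⟨[], mem_Wle.2 (Nat.zero_le _)⟩
    refine ⟨(Wle m : Finset (List (KK n))).inf' hne η, ?_, fun w' hw' => Finset.inf'_le _ hw'⟩
    rw [gt_iff_lt, Finset.lt_inf'_iff]
    exact fun w' _ => hη w'
  refine ⟨η0, hη0, fun s hs hst => ?_⟩
  rw [sn_eq]
  have h2 := Finset.sum_le_card_nsmul (Wle m : Finset (List (KK n)))
    (fun w => ip (Wd w (y s - y t)) (Wd w (y s - y t))) (δ / (M + 1))
    (fun w hw => H w s hs (hst.trans (hle w hw)))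
  rw [nsmul_eq_mul] at h2
  refine h2.trans ?_
  rw [← hM, mul_div_assoc', div_le_iff₀ (by positivity)]
  nlinarith

end Pool.Agent.Helper59.RN
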